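import Mathlib
import Pool.Agent.H2.Crit.Main

/-!
# The critical area `a_n` is at least `n - C n^(1/4) log n`
-/

open MeasureTheory Set

namespace Pool.Agent.Results.MP_1ff44a_co.LowerBound

/-- The points of the Euclidean plane with integer coordinates. -/
def lattice : Set (EuclideanSpace ℝ (Fin 2)) := {x | ∀ i, ∃ k : ℤ, x i = k}

/-- Some rigid motion moves `S` to a set containing at least `n` lattice points. -/
def CanCover (S : Set (EuclideanSpace ℝ (Fin 2))) (n : ℕ) : Prop :=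
  ∃ ρ : EuclideanSpace ℝ (Fin 2) ≃ᵢ EuclideanSpace ℝ (Fin 2),
    (n : ℕ∞) ≤ (ρ '' S ∩ lattice).encard

/-- The critical area: the infimum of all `A` such that every Lebesgue measurable set of area
greater than `A` can be moved to cover at least `n` lattice points. -/
noncomputable def critArea (n : ℕ) : ENNReal :=
  sInf {A : ENNReal | ∀ S : Set (EuclideanSpace ℝ (Fin 2)), NullMeasurableSet S volume →
    A < volume S → CanCover S n}

open Pool.Agent.H2.Crit in
lemma not_canCover {E : Set Pl} {c : ℝ} {n : ℕ} (hc : c < n)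
    (hE : ∀ (B : Pl ≃ₗᵢ[ℝ] Pl) (t : Pl) (G : Finset (ℤ × ℤ)), (∀ z ∈ G, pt B t z ∈ E) →
      (G.card : ℝ) ≤ c) : ¬ CanCover E n := by
  classical
  rintro ⟨ρ, hρ⟩
  obtain ⟨T, hT, hTc⟩ := Set.exists_subset_encard_eq hρ
  have hfin : T.Finite := Set.finite_of_encard_eq_coe hTc
  set σ := ρ.symm with hσ
  set B := σ.toRealAffineIsometryEquiv.linearIsometryEquiv with hB
  have hσx : ∀ x : Pl, σ x = B x + σ 0 := by
    intro x
    have h := σ.toRealAffineIsometryEquiv.map_vadd 0 x
    simpa using h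
  set g : Pl → ℤ × ℤ := fun x => (⌊x 0⌋, ⌊x 1⌋) with hg
  have hlat : ∀ x ∈ lattice, x = ((g x).1 : ℝ) • e 0 + ((g x).2 : ℝ) • e 1 := by
    intro x hx
    obtain ⟨k0, hk0⟩ := hx 0
    obtain ⟨k1, hk1⟩ := hx 1
    ext i
    fin_cases i <;> simp [hg, e, hk0, hk1]
  have hpt : ∀ x ∈ lattice, pt B (σ 0) (g x) = σ x := by
    intro x hx
    rw [hσx x]
    conv_rhs => rw [hlat x hx]
    unfold pt
    simp only [map_add, map_smul]
    abel
  set G : Finset (ℤ × ℤ) := hfin.toFinset.image g with hG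
  have hmemE : ∀ z ∈ G, pt B (σ 0) z ∈ E := by
    intro z hz
    rw [hG, Finset.mem_image] at hz
    obtain ⟨x, hx, rfl⟩ := hz
    rw [Set.Finite.mem_toFinset] at hx
    have hx2 := hT hx
    rw [hpt x hx2.2]
    obtain ⟨y, hy, hyx⟩ := hx2.1
    rw [← hyx, hσ, IsometryEquiv.symm_apply_apply]
    exact hy
  have hcard : G.card = n := by
    rw [hG, Finset.card_image_of_injOn]
    · have : (hfin.toFinset.card : ℕ∞) = n := by
        rw [← hTc, ← hfin.encard_eq_coe_toFinset_card]
      exact_mod_cast this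
    · intro x hx y hy hxy
      rw [Set.Finite.coe_toFinset] at hx hy
      rw [hlat x (hT hx).2, hlat y (hT hy).2, hxy]
  have := hE B (σ 0) G hmemE
  rw [hcard] at this
  linarith

theorem result : ∃ C : ℝ, ∀ n : ℕ, 2 ≤ n →
    ENNReal.ofReal ((n : ℝ) - C * (n : ℝ) ^ (1 / 4 : ℝ) * Real.log n) ≤ critArea n := by
  refine ⟨110040, fun n hn => ?_⟩
  have hn2 : (2:ℝ) ≤ n := by exact_mod_cast hn
  have hn0 : (0:ℝ) < n := by linarith
  set x : ℝ := (n : ℝ) ^ (1 / 4 : ℝ) * Real.log n with hx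
  have hroot1 : 1 ≤ (n : ℝ) ^ (1 / 4 : ℝ) :=
    Real.one_le_rpow (by linarith) (by norm_num)
  have hlog2 : Real.log 2 ≤ Real.log n := Real.log_le_log (by norm_num) hn2
  have hlogn : 0.69 ≤ Real.log n := by linarith [Real.log_two_gt_d9]
  have hx1 : 0.69 ≤ x := by
    rw [hx]
    calc (0.69:ℝ) ≤ Real.log n := hlogn
      _ ≤ (n : ℝ) ^ (1 / 4 : ℝ) * Real.log n := le_mul_of_one_le_left (by linarith) hroot1
  rw [mul_assoc, ← hx]
  by_cases hy : (n:ℝ) - 110000 * x < 16
  · rw [ENNReal.ofReal_of_nonpos (by linarith)]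
    exact zero_le
  · push Not at hy
    set y : ℝ := (n:ℝ) - 110000 * x with hyd
    set R : ℝ := Real.sqrt y / 2 with hR
    have hy0 : 0 ≤ y := by linarith
    have hR2 : 4 * R ^ 2 = y := by
      rw [hR, div_pow, Real.sq_sqrt hy0]; ring
    have hRge : 2 ≤ R := by
      have : (4:ℝ) ≤ Real.sqrt y := by
        rw [show (4:ℝ) = Real.sqrt 16 by
          rw [show (16:ℝ) = 4 ^ 2 by norm_num, Real.sqrt_sq (by norm_num)]]
        exact Real.sqrt_le_sqrt hy
      rw [hR]; linarith
    obtain ⟨k, hk1, hk2⟩ := exists_nat_pow_near (x := R) (y := 2) (by linarith) (by norm_num)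
    obtain ⟨E, hEm, hEv, hEc⟩ := Pool.Agent.H2.Crit.main R hRge (k + 1) (by omega) hk2.le
      (by rw [pow_succ]; linarith)
    -- the bound for the logarithm
    have hRn : R ^ 2 ≤ n / 4 := by
      have : y ≤ n := by rw [hyd]; linarith
      linarith
    have hR0 : 0 < R := by linarith
    have hlogR : Real.log R ≤ Real.log n / 2 := by
      have h1 : Real.log (R ^ 2) ≤ Real.log n :=
        Real.log_le_log (by positivity) (by linarith)
      rw [Real.log_pow] at h1
      push_cast at h1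
      linarith
    have hkl : (k:ℝ) * Real.log 2 ≤ Real.log R := by
      rw [← Real.log_pow]
      exact Real.log_le_log (by positivity) hk1
    have hlogR2 : Real.log 2 ≤ Real.log R := Real.log_le_log (by norm_num) hRge
    have hk3 : ((k + 1 : ℕ) : ℝ) ≤ 1.5 * Real.log n := by
      push_cast
      have h2 : ((k:ℝ) + 1) * Real.log 2 ≤ Real.log n := by linarith
      have h3 : ((k:ℝ) + 1) * 0.6931471803 ≤ ((k:ℝ) + 1) * Real.log 2 :=
        mul_le_mul_of_nonneg_left Real.log_two_gt_d9.le (by positivity)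
      linarith
    have hsq : Real.sqrt R ≤ (n : ℝ) ^ (1 / 4 : ℝ) := by
      have h1 : (n : ℝ) ^ (1 / 4 : ℝ) = Real.sqrt (Real.sqrt n) := by
        rw [Real.sqrt_eq_rpow, Real.sqrt_eq_rpow, ← Real.rpow_mul hn0.le]
        norm_num
      rw [h1]
      refine Real.sqrt_le_sqrt ?_
      refine Real.le_sqrt_of_sq_le ?_
      linarith
    have hl : 70000 * (Real.sqrt R * ((k + 1 : ℕ) : ℝ)) ≤ 105000 * x := by
      have : Real.sqrt R * ((k + 1 : ℕ) : ℝ) ≤ (n : ℝ) ^ (1 / 4 : ℝ) * (1.5 * Real.log n) :=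
        mul_le_mul hsq hk3 (Nat.cast_nonneg _) (by positivity)
      rw [hx]
      linarith
    have hnc : ¬ CanCover E n := by
      refine not_canCover (c := 4 * R ^ 2 + 2 + 70000 * (Real.sqrt R * ((k + 1 : ℕ) : ℝ))) ?_ hEc
      rw [hR2, hyd]
      linarith
    refine le_sInf (fun A hA => ?_)
    by_contra hcon
    push Not at hcon
    refine hnc (hA E hEm.nullMeasurableSet (hcon.trans_le (le_trans ?_ hEv)))
    refine ENNReal.ofReal_le_ofReal ?_
    rw [hR2]
    linarith

end Pool.Agent.Results.MP_1ff44a_co.LowerBound
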